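import Mathlib

set_option autoImplicit false

open Filter Topology
open scoped ZeroAtInfty

namespace Pool.Agent.Results.MP_739307_an.Depends

/-- The net `e` indexed by the directed set `J` is an approximate identity of the normed
algebra `A`. -/
def IsApproxIdentity {A J : Type} [NonUnitalNormedRing A] [Preorder J] (e : J → A) : Prop :=
  ∀ x : A, Tendsto (fun j => ‖e j * x - x‖) atTop (𝓝 0) ∧
    Tendsto (fun j => ‖x * e j - x‖) atTop (𝓝 0)

/-- The condition `C(a, l, E)` for the net `E`: there is a net `r` with the same index set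
such that `(l E_j - a) r_j` is an approximate identity. -/
def Cond {A J : Type} [NonUnitalNormedRing A] [Module ℂ A] [Preorder J] (a : A) (l : ℂ)
    (E : J → A) : Prop :=
  ∃ r : J → A, IsApproxIdentity fun j => (l • E j - a) * r j

/-- the function on `ℕ` equal to `f` on `{0, ..., n}` and to zero elsewhere -/
noncomputable def cut (n : ℕ) (f : ℕ → ℂ) : C₀(ℕ, ℂ) where
  toFun k := if k ≤ n then f k else 0
  continuous_toFun := continuous_of_discreteTopology
  zero_at_infty' := by
    rw [cocompact_eq_cofinite, Nat.cofinite_eq_atTop]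
    refine tendsto_const_nhds.congr' ?_
    filter_upwards [eventually_gt_atTop n] with k hk
    rw [if_neg (by omega)]

theorem cut_apply (n : ℕ) (f : ℕ → ℂ) (k : ℕ) : cut n f k = if k ≤ n then f k else 0 := rfl

theorem norm_le_of {f : C₀(ℕ, ℂ)} {C : ℝ} (hC : 0 ≤ C) (h : ∀ k, ‖f k‖ ≤ C) : ‖f‖ ≤ C := by
  rw [← ZeroAtInftyContinuousMap.norm_toBCF_eq_norm]
  exact (BoundedContinuousFunction.norm_le hC).2 h

theorem apply_le_norm (f : C₀(ℕ, ℂ)) (k : ℕ) : ‖f k‖ ≤ ‖f‖ := by
  rw [← ZeroAtInftyContinuousMap.norm_toBCF_eq_norm]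
  exact f.toBCF.norm_coe_le_norm k

/-- a sequence `e n` in `c₀` bounded by one with `e n k = 1` for `1 ≤ k ≤ n` and
`e n 0 → 1` is an approximate identity -/
theorem approx_of {e : ℕ → C₀(ℕ, ℂ)} (h1 : ∀ n k, 1 ≤ k → k ≤ n → e n k = 1)
    (h2 : ∀ n k, n < k → e n k = 0) (h3 : Tendsto (fun n => e n 0) atTop (𝓝 1)) :
    IsApproxIdentity e := by
  intro x
  have hmain : Tendsto (fun n => ‖e n * x - x‖) atTop (𝓝 0) := by
    rw [Metric.tendsto_atTop]
    intro ε hε
    have hx := x.zero_at_infty'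
    rw [cocompact_eq_cofinite, Nat.cofinite_eq_atTop] at hx
    have hx' : ∀ᶠ k in atTop, ‖x k‖ < ε / 2 := by
      have := hx.norm
      rw [norm_zero] at this
      exact this.eventually (gt_mem_nhds (by linarith))
    have h0 : ∀ᶠ n in atTop, ‖e n 0 - 1‖ * (‖x‖ + 1) < ε / 2 := by
      have h4 : Tendsto (fun n => ‖e n 0 - 1‖ * (‖x‖ + 1)) atTop (𝓝 (‖(1 : ℂ) - 1‖ * (‖x‖ + 1))) :=
        ((h3.sub tendsto_const_nhds).norm).mul_const _
      rw [sub_self, norm_zero, zero_mul] at h4
      exact h4.eventually (gt_mem_nhds (by linarith))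
    obtain ⟨N1, hN1⟩ := eventually_atTop.1 hx'
    obtain ⟨N2, hN2⟩ := eventually_atTop.1 h0
    refine ⟨max N1 N2, fun n hn => ?_⟩
    have hn1 : N1 ≤ n := le_trans (le_max_left _ _) hn
    have hn2 : N2 ≤ n := le_trans (le_max_right _ _) hn
    rw [dist_zero_right, norm_norm]
    refine lt_of_le_of_lt (norm_le_of (C := ε / 2) (by linarith) (fun k => ?_)) (by linarith)
    have hk : (e n * x - x) k = (e n k - 1) * x k := by
      change e n k * x k - x k = _
      ring
    rw [hk, norm_mul]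
    rcases Nat.eq_zero_or_pos k with rfl | hk1
    · have h5 := hN2 n hn2
      have h6 := apply_le_norm x 0
      calc ‖e n 0 - 1‖ * ‖x 0‖ ≤ ‖e n 0 - 1‖ * (‖x‖ + 1) := by gcongr; linarith
        _ ≤ ε / 2 := h5.le
    · rcases le_or_gt k n with hkn | hkn
      · rw [h1 n k hk1 hkn, sub_self, norm_zero, zero_mul]
        linarith
      · rw [h2 n k hkn, zero_sub, norm_neg, norm_one, one_mul]
        exact (hN1 k (by omega)).le
  refine ⟨hmain, ?_⟩
  have h7 : (fun n => ‖x * e n - x‖) = fun n => ‖e n * x - x‖ := by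
    funext n
    rw [mul_comm]
  rw [h7]
  exact hmain

/-- the approximate identity `1_{[0,n]}` -/
noncomputable def E (n : ℕ) : C₀(ℕ, ℂ) := cut n fun _ => 1

/-- the approximate identity `1_{[0,n]} - (1/(n+1)) 1_{0}` -/
noncomputable def F (n : ℕ) : C₀(ℕ, ℂ) := cut n fun k => if k = 0 then 1 - 1 / ((n : ℂ) + 1) else 1

/-- the element `1_{0}` -/
noncomputable def a : C₀(ℕ, ℂ) := cut 0 fun _ => 1

/-- In the (non-unital, commutative) C*-algebra `c₀` there are an element `a` and two
approximate identities `E`, `F`, both bounded by one, such that `C(a, 1, F)` holds and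
`C(a, 1, E)` fails. -/
theorem result : (¬ ∃ u : C₀(ℕ, ℂ), ∀ x, u * x = x) ∧
    ∃ (a : C₀(ℕ, ℂ)) (E F : ℕ → C₀(ℕ, ℂ)), IsApproxIdentity E ∧ IsApproxIdentity F ∧
      (∀ n, ‖E n‖ ≤ 1) ∧ (∀ n, ‖F n‖ ≤ 1) ∧ Cond a 1 F ∧ ¬ Cond a 1 E := by
  constructor
  · rintro ⟨u, hu⟩
    have h1 : ∀ k, u k = 1 := by
      intro k
      have h2 := congrArg (fun f : C₀(ℕ, ℂ) => f k) (hu (cut k fun _ => 1))
      change u k * (if k ≤ k then 1 else 0) = (if k ≤ k then 1 else 0) at h2
      rw [if_pos le_rfl, mul_one] at h2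
      exact h2
    have hz := u.zero_at_infty'
    rw [cocompact_eq_cofinite, Nat.cofinite_eq_atTop] at hz
    have h3 : Tendsto (fun _ : ℕ => (1 : ℂ)) atTop (𝓝 0) := hz.congr h1
    exact one_ne_zero (tendsto_nhds_unique tendsto_const_nhds h3)
  have hn1 : ∀ n : ℕ, ‖(1 : ℂ) - 1 / ((n : ℂ) + 1)‖ ≤ 1 := by
    intro n
    have h1 : (1 : ℂ) - 1 / ((n : ℂ) + 1) = ((1 - 1 / ((n : ℝ) + 1) : ℝ) : ℂ) := by push_cast; rfl
    rw [h1, Complex.norm_real, Real.norm_eq_abs, abs_le]
    have h2 : (0 : ℝ) < 1 / ((n : ℝ) + 1) := by positivity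
    have h3 : 1 / ((n : ℝ) + 1) ≤ 1 := by
      rw [div_le_one (by positivity)]
      have : (0 : ℝ) ≤ n := Nat.cast_nonneg n
      linarith
    constructor <;> linarith
  have hlim : Tendsto (fun n : ℕ => (1 : ℂ) - 1 / ((n : ℂ) + 1)) atTop (𝓝 1) := by
    have h1 : Tendsto (fun n : ℕ => 1 / ((n : ℂ) + 1)) atTop (𝓝 0) :=
      tendsto_one_div_add_atTop_nhds_zero_nat (𝕜 := ℂ)
    have h2 := (tendsto_const_nhds (x := (1 : ℂ))).sub h1
    rwa [sub_zero] at h2
  have hE : IsApproxIdentity E := by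
    refine approx_of (fun n k hk1 hk2 => ?_) (fun n k hk => ?_) ?_
    · rw [E, cut_apply, if_pos hk2]
    · rw [E, cut_apply, if_neg (by omega)]
    · refine tendsto_const_nhds.congr (fun n => ?_)
      rw [E, cut_apply, if_pos (Nat.zero_le n)]
  refine ⟨a, E, F, hE, ?_, fun n => ?_, fun n => ?_, ?_, ?_⟩
  · refine approx_of (fun n k hk1 hk2 => ?_) (fun n k hk => ?_) ?_
    · rw [F, cut_apply, if_pos hk2, if_neg (by omega)]
    · rw [F, cut_apply, if_neg (by omega)]
    · refine hlim.congr (fun n => ?_)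
      rw [F, cut_apply, if_pos (Nat.zero_le n), if_pos rfl]
  · refine norm_le_of zero_le_one (fun k => ?_)
    rw [E, cut_apply]
    split_ifs <;> simp
  · refine norm_le_of zero_le_one (fun k => ?_)
    rw [F, cut_apply]
    split_ifs
    · exact hn1 n
    · simp
    · simp
  · refine ⟨fun n => cut n fun k => if k = 0 then -((n : ℂ) + 1) else 1, ?_⟩
    have h1 : (fun n : ℕ => ((1 : ℂ) • F n - a) *
        cut n fun k => if k = 0 then -((n : ℂ) + 1) else 1) = E := by
      funext n
      ext k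
      change ((1 : ℂ) * F n k - a k) * (cut n fun k => if k = 0 then -((n : ℂ) + 1) else 1) k = E n k
      rw [F, a, E, cut_apply, cut_apply, cut_apply, cut_apply]
      have hne : ((n : ℂ) + 1) ≠ 0 := by exact_mod_cast Nat.succ_ne_zero n
      rcases Nat.eq_zero_or_pos k with rfl | hk
      · simp only [Nat.zero_le, if_true, le_refl]
        field_simp
        ring
      · rcases le_or_gt k n with hkn | hkn
        · rw [if_pos hkn, if_pos hkn, if_pos hkn, if_neg (by omega), if_neg (by omega),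
            if_neg (by omega)]
          ring
        · rw [if_neg (by omega), if_neg (by omega), if_neg (by omega), if_neg (by omega)]
          ring
    rw [h1]
    exact hE
  · rintro ⟨r, hr⟩
    have h1 := (hr (E 0)).1
    have h2 : ∀ n, 1 ≤ ‖((1 : ℂ) • E n - a) * r n * E 0 - E 0‖ := by
      intro n
      refine le_trans ?_ (apply_le_norm _ 0)
      have h3 : (((1 : ℂ) • E n - a) * r n * E 0 - E 0) 0 = -1 := by
        change ((1 : ℂ) * E n 0 - a 0) * r n 0 * E 0 0 - E 0 0 = -1
        simp only [E, a, cut_apply]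
        simp
      rw [h3]
      simp
    have h3 := ge_of_tendsto' h1 h2
    linarith

end Pool.Agent.Results.MP_739307_an.Depends
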